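import Pool.Agent.MelE.Fin

/-!
# Virtual retracts of Mel'nikov groups are free or freely indecomposable

**Theorem.**  Let `G` be an infinite Mel'nikov group (residually finite, every subgroup of finite index one-relator),
`N` a subgroup of finite index and `P` a retract of `N`.  If `P` is a free product of two nontrivial groups, then `P`
is free.

No other hypothesis and no published theorem is assumed.  The proof, all of it in Lean (directories `MelL`, `MelR`,
`MelE` of `Pool/Agent`, and the Fox calculus of `MelD`):

1. Torsion-free one-relator groups are locally indicable (Brodskii, Howie; here by the stackings of Louder and
   Wilton), so `P = A * B` and its subgroups are locally indicable and their group rings have no zero divisors.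
   `B` is finitely generated, so it maps onto `ℤ`, and `A * ℤ` is a retract of `N` too; the kernel of
   `A * ℤ → ℤ / 2` is `Q = A * A * ℤ`, a retract of a subgroup of finite index `N'`.
2. `N'` has one relator `r`.  Its Fox derivatives give `D` in `K[Q]^k`, and `H^2(Q; K[Q])`, a direct summand of
   `H^2(N'; K[Q])`, is a cyclic module.  It is the direct sum of the modules induced from `H^2(A; K[A])` for the two
   copies of `A`.  A combinatorial argument with reduced words (the case of rank one of Bergman's theorem on modules
   over coproducts) shows that one of two induced summands of a cyclic module is zero.  So the augmentation ideal of
   `K[A]` is projective, in the form of a derivation `A → K[A]^n`.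
3. The derivation gives an almost invariant subset of `A`; nested minimal cuts (Dunwoody, in the form of Kroen) and
   the tree which they define split `A` as a free product or show that `A` is infinite cyclic (Stallings); induction
   on the first Betti number.  So `A` is free, and so is `B`.

## How the conjecture follows with published theorems (not in Lean)

Let `G` be an infinite Mel'nikov group.  If `G` is generated by two elements the conjecture is known (Gardam, Kielak,
Logan 2023).  Let `G` have rank at least 3 and suppose that it is neither free nor a surface group.
(a) `G` is 2-free (Jaikin-Zapirain, Morales 2023), so it has negative immersions (Louder, Wilton 2022), so it is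
    hyperbolic and virtually special (Linton 2022); it is torsion-free.
(b) `G` has a quasiconvex subgroup `H` of infinite index which is not free (Wilton 2024, Surface groups among
    cubulated hyperbolic and one-relator groups, in the form for one-relator groups of rank at least 3 which are
    hyperbolic and cubulated; this form is stated among the known results of the problem MP_0c5642_al).  Replacing `H`
    by a subgroup of finite index (not free either, by Stallings) we may assume that `H` lies in a special subgroup
    `G'` of finite index in `G`.
(c) There is `g` in `G'`, not trivial, such that `H` and `g` generate their free product `H * <g>` and this is
    quasiconvex (Arzhantseva 2001), so it is a retract of a subgroup of finite index of `G'` (Haglund, Wise 2008).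
(d) By the theorem of this file `H * <g>` is free, so `H` is free: a contradiction.

For (b) there is also a direct argument: if the boundary of `G'` has a local cut point, use Bowditch 1998 and Wilton 2012
(one-ended subgroups of graphs of free groups with cyclic edge groups); otherwise the boundary is annularly linearly
connected (Mackay 2010), and the vertex groups of the splittings of the subgroups of finite index over the stabilizer
of a hyperplane, with far apart translates, have nondegenerate continua in their limit sets, so they are not free.
-/

open Pool.Agent.MelG (IsMelnikov)

namespace Pool.Agent.Results.MP_24ba74_al.FreeRetracts

/-- A retract `P` of a subgroup `N` of finite index of an infinite Mel'nikov group `G` which is isomorphic to a free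
product of two nontrivial groups is free. -/
theorem result (G : Type) [Group G] [Infinite G] (hG : IsMelnikov G) (N : Subgroup G) (hN : N.FiniteIndex)
    (P : Subgroup G) (hPN : P ≤ N) (ρ : N →* P) (hρ : ∀ x : P, ρ ⟨x, hPN x.2⟩ = x)
    (A B : Type) [Group A] [Group B] [Nontrivial A] [Nontrivial B] (e : P ≃* Monoid.Coprod A B) :
    IsFreeGroup P := by
  have h := Pool.Agent.MelE.free_retract hG N hN (A := A) (B := B) (e.toMonoidHom.comp ρ)
    ((Subgroup.inclusion hPN).comp e.symm.toMonoidHom) fun p => by
      show e (ρ ⟨e.symm p, _⟩) = p
      rw [hρ, e.apply_symm_apply]
  exact IsFreeGroup.ofMulEquiv e.symm

end Pool.Agent.Results.MP_24ba74_al.FreeRetracts
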