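import Mathlib
import Pool.Agent.MelG.PartA
import Pool.Agent.MelG.Main

open Filter Topology

namespace Pool.Agent.Results.MP_24ba74_al.GenericRelators

open Pool.Agent.MelG

theorem result (k : ℕ) (hk : 2 ≤ k) (m : ℕ) :
    (∀ ε : ℝ, 0 < ε → ∃ (Γ : Type) (_ : Group Γ) (_ : Finite Γ) (Φ : FreeGroup (Fin k) →* Γ)
      (X : Set Γ), Function.Surjective Φ ∧
      (∀ (s : ℕ) (r₀ : FreeGroup (Fin k)),
        ((X ∩ Cos Φ r₀ s).ncard : ℝ) ≤ ε * (Cos Φ r₀ s).ncard) ∧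
      ∀ r : FreeGroup (Fin k), Φ r ∉ X →
        Virt m (PresentedGroup ({r} : Set (FreeGroup (Fin k))))) ∧
    Tendsto (fun L : ℕ =>
      ({w : Fin L → Fin k × Bool | Virt m (PresentedGroup
        ({FreeGroup.mk (List.ofFn w)} : Set (FreeGroup (Fin k))))}.ncard : ℝ) / (2 * k : ℝ) ^ L)
      atTop (𝓝 1) ∧
    (1 ≤ m → ∀ (G : Type) [Group G], Virt m G → ¬ IsMelnikov G) :=
  ⟨fun ε hε => partA k hk m ε hε, words k hk m, fun hm _ _ h => not_melnikov hm h⟩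

end Pool.Agent.Results.MP_24ba74_al.GenericRelators
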