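import Mathlib
import Pool.Agent.MelS.TypeS

open Pool.Agent.MelG (HasRel)
open Pool.Agent.MelS (IsRFRS IsPD2)

namespace Pool.Agent.Results.MP_24ba74_al.HomologyType

/-- `c` is prime to the denominators of all values of `χ`, and `χ g` is `1` modulo `c` for `g` in `N`. -/
def Good {G : Type} [Group G] (χ : G →* ℚ) (N : Subgroup G) (c : ℕ) : Prop :=
  (∀ g, (χ g).den.Coprime c) ∧ ∀ g ∈ N, (c : ℤ) ∣ (χ g).num - (χ g).den

theorem result (m : ℕ) (G : Type) [Group G] [Infinite G] (h1 : HasRel 1 G)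
    (H : ∀ N : Subgroup G, N.Normal → N.FiniteIndex → HasRel m N) :
    ∃ e : ℕ,
      ((∀ N : Subgroup G, N.Normal → N.FiniteIndex → ∀ q : ℕ, 0 < q →
          Nat.card (N →* Multiplicative (ZMod q)) = q ^ (e * N.index + 1)) ∧
        (∀ (P : Type) [Group P] [Finite P] (M : Subgroup P) [M.Normal] (φ : G →* P ⧸ M),
          ∃ ψ : G →* P, ∀ g, (QuotientGroup.mk (ψ g) : P ⧸ M) = φ g) ∧
        (∀ (S : Type) [Group S] [Finite S] [Group.IsSolvable S],
          Nat.card (G →* S) = Nat.card S ^ (e + 1))) ∨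
      ∃ χ : G →* ℚ,
        (∀ N : Subgroup G, N.Normal → N.FiniteIndex → ∀ q : ℕ, 0 < q →
          ∃ c : ℕ, c ∣ q ∧ Good χ N c ∧ (∀ c' : ℕ, c' ∣ q → Good χ N c' → c' ∣ c) ∧
            Nat.card (N →* Multiplicative (ZMod q)) = q ^ (e * N.index + 1) * c) ∧
        (∀ (p : ℕ), p.Prime → ∀ (P : Type) [Group P] [Finite P] (A : Subgroup P) [A.Normal],
          (∀ a ∈ A, ∀ b ∈ A, a * b = b * a) → (∀ a ∈ A, a ^ p = 1) → ∀ φ : G →* P ⧸ A,
          (∀ l : A →* Multiplicative (ZMod p), (∀ (g : G) (y : P) (a b : A),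
            (QuotientGroup.mk y : P ⧸ A) = φ g → b.1 = y * a.1 * y⁻¹ →
              ((χ g).den : ZMod p) * Multiplicative.toAdd (l b) =
                ((χ g).num : ZMod p) * Multiplicative.toAdd (l a)) → l = 1) →
          ∃ ψ : G →* P, ∀ g, (QuotientGroup.mk (ψ g) : P ⧸ A) = φ g) ∧
        ((∃ N : Subgroup G, N.Normal ∧ N.FiniteIndex ∧ IsRFRS N) →
          (∀ g, χ g = 1 ∨ χ g = -1) ∧ IsPD2 ℤ G) :=
  Pool.Agent.MelS.dichotomyS m G h1 H

end Pool.Agent.Results.MP_24ba74_al.HomologyType
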