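import Pool.Agent.MelE.Fin
import Pool.Agent.MelF.GenC
import Pool.Agent.MelF.Main2

/-!
# Subgroups of infinite index of Mel'nikov groups and virtual retracts

**Theorem.**  Let `G` be an infinite Mel'nikov group which is not generated by two elements and `G₀` a subgroup of finite index.

(1) Let `H` be a subgroup of `G` and `K ≤ G₀` a finitely generated subgroup of finite index in `H` which lies in subgroups of
arbitrarily large finite index of `G` (for example, a closed subgroup of infinite index in the profinite topology).  Suppose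
that all the subgroups `K * ⟨g⟩`, `g ∈ G₀` of infinite order, `K` and `g` generating their free product, are virtual retracts
of `G` (retracts of subgroups of finite index).  Then `H` is free.

(2) So, if every finitely generated subgroup of `G₀` is a virtual retract of `G` (`G` is virtually (LR); for example, `G` is a
limit group, by a theorem of Wilton), then every finitely generated subgroup `H` of infinite index of `G` is free: take
`K = H ∩ G₀`; it is a virtual retract, so closed.

No published theorem is assumed.  The proof, all of it in Lean (`MelF`, `MelE`, `MelL`, `MelR`, `L2Coh` of `Pool/Agent`, and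
the Fox calculus of `MelD`):

1. One-relator groups without torsion are locally indicable (Brodskii, Howie; here by stackings), so left orderable.
2. Let `K` be generated by `n` elements and let `N ≤ G₀` be a subgroup of finite index `≥ n + 1` with `K ≤ N`.  As `G` is not
   generated by two elements, `N = ⟨x_1, ..., x_k | r⟩` with `k ≥ n + 2`.  For some `m`, the element `x_m - 1` is independent of
   the left ideal `I` of `ℚ[N]` generated by the `a - 1`, `a ∈ K`: if `b (x_m - 1) ∈ I` then `b = 0`.  Otherwise, by Fox
   calculus, a matrix over `ℚ[N]` would define an injective map from `ℓ²(N)^k` to `ℓ²(N)^(n+1)` (nonzero elements of `ℤ[N]` act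
   injectively on `ℓ²(N)`, as `N` is left orderable), contrary to von Neumann dimension.
3. So there is a function `f` on `N` with `f (g a) = f g` for `a ∈ K`, `f (x_m) = f 1 + 1` and `f (g x_m) = f g` for `g ≠ 1`.  Its
   translates show that `K` and `x_m` generate their free product `K * ⟨x_m⟩`.
4. By assumption this is a virtual retract, so it is free, by the theorem of `FreeRetracts` (here from `MelE`), and `K` is free.
5. `H` is finitely generated, locally indicable and virtually free, so free (nested minimal cuts and the tree which they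
   define, as in the proof of Stallings' theorem).
-/

open Pool.Agent.MelG (IsMelnikov)

namespace Pool.Agent.Results.MP_24ba74_al.InfiniteIndex

/-- `P` is a retract of a subgroup `N` of finite index of `G`: a homomorphism `ρ` from `N` to `P` is the identity on `P`. -/
def VirtualRetract {G : Type} [Group G] (P : Subgroup G) : Prop :=
  ∃ (N : Subgroup G) (hPN : P ≤ N) (ρ : N →* P), N.FiniteIndex ∧ ∀ x : P, ρ ⟨x, hPN x.2⟩ = x

/-- `K` and `g` generate their free product in `G`, and `g` is of infinite order: the homomorphism from the free product of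
`K` and `ℤ` to `G` which is the inclusion on `K` and takes the generator of `ℤ` to `g` is injective. -/
def FreelyGenerate {G : Type} [Group G] (K : Subgroup G) (g : G) : Prop :=
  Function.Injective (Monoid.Coprod.lift K.subtype (zpowersHom G g))

/-- A group with a finitely generated subgroup of finite index is finitely generated. -/
theorem fg_of_virt {H : Type} [Group H] (K : Subgroup H) (hK : K.FiniteIndex) (hfg : K.FG) : Group.FG H := by
  classical
  obtain ⟨S, hS⟩ := hfg
  obtain ⟨T, hT, -⟩ := K.exists_isComplement_right 1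
  have hTf : T.Finite := hT.finite_right
  refine ⟨⟨S ∪ hTf.toFinset, ?_⟩⟩
  rw [eq_top_iff]
  intro x _
  obtain ⟨⟨k, t⟩, hx⟩ := hT.surjective x
  have h1 : (k : H) ∈ Subgroup.closure (S : Set H) := by
    rw [hS]
    exact k.2
  rw [← hx]
  refine mul_mem (Subgroup.closure_mono ?_ h1) (Subgroup.subset_closure ?_)
  · rw [Finset.coe_union]
    exact Set.subset_union_left
  · rw [Finset.coe_union, Set.Finite.coe_toFinset]
    exact Or.inr t.2

/-- A finitely generated subgroup `K` of `G₀` which lies in subgroups of arbitrarily large finite index generates its free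
product with some element of `G₀`. -/
theorem exists_freelyGenerate {G : Type} [Group G] [Infinite G] (hG : IsMelnikov G)
    (h2 : ∀ a b : G, Subgroup.closure {a, b} ≠ ⊤) (G₀ : Subgroup G) (h0 : G₀.FiniteIndex) (K : Subgroup G)
    (hK0 : K ≤ G₀) (hfg : K.FG) (hK : ∀ B : ℕ, ∃ N : Subgroup G, N.FiniteIndex ∧ K ≤ N ∧ B ≤ N.index) :
    ∃ g ∈ G₀, FreelyGenerate K g := by
  classical
  obtain ⟨S, hS⟩ := hfg
  obtain ⟨N, hN, hKN, hi⟩ := hK (S.card + 1)
  have hr : Set.range (fun i : Fin S.card => ((S.equivFin.symm i : S) : G)) = (S : Set G) := by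
    ext x
    constructor
    · rintro ⟨i, rfl⟩
      exact (S.equivFin.symm i).2
    · intro hx
      exact ⟨S.equivFin ⟨x, hx⟩, by simp⟩
  have hf : (N ⊓ G₀).FiniteIndex := inferInstance
  have hi' : N.index ≤ (N ⊓ G₀).index :=
    Nat.le_of_dvd (Nat.pos_of_ne_zero hf.index_ne_zero) (Subgroup.index_dvd_of_le inf_le_left)
  obtain ⟨g, hgN, hg⟩ := Pool.Agent.MelF.emb_of_index hG h2 K
    (fun i : Fin S.card => ((S.equivFin.symm i : S) : G)) (by rw [hr, hS]) (N ⊓ G₀) hf (le_inf hKN hK0)
    (hi.trans hi')
  exact ⟨g, hgN.2, hg⟩

/-- The general form. -/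
theorem free_of_retracts {G : Type} [Group G] [Infinite G] (hG : IsMelnikov G)
    (h2 : ∀ a b : G, Subgroup.closure {a, b} ≠ ⊤) (G₀ : Subgroup G) (h0 : G₀.FiniteIndex)
    (H K : Subgroup G) (hKH : K ≤ H) (hKi : K.relIndex H ≠ 0) (hK0 : K ≤ G₀) (hfg : K.FG)
    (hK : ∀ B : ℕ, ∃ N : Subgroup G, N.FiniteIndex ∧ K ≤ N ∧ B ≤ N.index)
    (hg : ∀ g ∈ G₀, FreelyGenerate K g → VirtualRetract (K ⊔ Subgroup.zpowers g)) :
    IsFreeGroup H := by
  have hf : IsFreeGroup K := by
    by_cases hn : Nontrivial K
    · obtain ⟨g, hg0, hgi⟩ := exists_freelyGenerate hG h2 G₀ h0 K hK0 hfg hK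
      obtain ⟨P, hP⟩ : ∃ P : Subgroup G, P = K ⊔ Subgroup.zpowers g := ⟨_, rfl⟩
      have hv := hg g hg0 hgi
      rw [← hP] at hv
      have hP' : (Monoid.Coprod.lift K.subtype (zpowersHom G g)).range = P := by
        rw [hP, Monoid.Coprod.range_lift, Subgroup.range_subtype]
        rfl
      obtain ⟨M, hPM, σ, hM, hσ⟩ := hv
      let e : Monoid.Coprod K (Multiplicative ℤ) ≃* P :=
        (MonoidHom.ofInjective hgi).trans (MulEquiv.subgroupCongr hP')
      have h1 := Pool.Agent.MelE.free_retract hG M hM (A := K) (B := Multiplicative ℤ)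
        (e.symm.toMonoidHom.comp σ) ((Subgroup.inclusion hPM).comp e.toMonoidHom) fun p => by
          show e.symm (σ ⟨e p, _⟩) = p
          rw [hσ, e.symm_apply_apply]
      have h3 : IsFreeGroup (Monoid.Coprod.inl : K →* Monoid.Coprod K (Multiplicative ℤ)).range := inferInstance
      exact IsFreeGroup.ofMulEquiv
        (MonoidHom.ofInjective (f := (Monoid.Coprod.inl : K →* Monoid.Coprod K (Multiplicative ℤ)))
          Monoid.Coprod.inl_injective).symm
    · rw [not_nontrivial_iff_subsingleton] at hn
      exact IsFreeGroup.ofMulEquiv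
        { toFun := fun _ => 1, invFun := fun _ => 1, left_inv := fun _ => Subsingleton.elim _ _,
          right_inv := fun _ => Subsingleton.elim _ _, map_mul' := fun _ _ => Subsingleton.elim _ _ :
          FreeGroup Empty ≃* K }
  have hfi : (K.subgroupOf H).FiniteIndex := ⟨hKi⟩
  have hfgK : Group.FG K := (Group.fg_iff_subgroup_fg K).mpr hfg
  have hfgKH : Group.FG (K.subgroupOf H) :=
    Group.fg_of_surjective (f := (Subgroup.subgroupOfEquivOfLe hKH).symm.toMonoidHom)
      (Subgroup.subgroupOfEquivOfLe hKH).symm.surjective
  exact Pool.Agent.MelF.free_of_virt (fg_of_virt _ hfi ((Group.fg_iff_subgroup_fg _).mp hfgKH))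
    (Pool.Agent.MelL.locInd_subgroup (Pool.Agent.MelL.locInd_melnikov hG) H) (K.subgroupOf H) hfi
    (IsFreeGroup.ofMulEquiv (Subgroup.subgroupOfEquivOfLe hKH).symm)

/-- Let `G` be an infinite Mel'nikov group, not generated by two elements, and `G₀` a subgroup of finite index.  Let `H` be a
subgroup and `K ≤ G₀` a finitely generated subgroup of finite index in `H` which lies in subgroups of arbitrarily large finite
index of `G`.  If, for every `g ∈ G₀` such that `K` and `g` generate their free product, this is a virtual retract of `G`, then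
`H` is free.  If all finitely generated subgroups of `G₀` are virtual retracts of `G`, then every finitely generated subgroup of
infinite index of `G` is free. -/
theorem result (G : Type) [Group G] [Infinite G] (hG : IsMelnikov G)
    (h2 : ∀ a b : G, Subgroup.closure {a, b} ≠ ⊤) (G₀ : Subgroup G) (h0 : G₀.FiniteIndex) :
    (∀ H K : Subgroup G, K ≤ H → K.relIndex H ≠ 0 → K ≤ G₀ → K.FG →
      (∀ B : ℕ, ∃ N : Subgroup G, N.FiniteIndex ∧ K ≤ N ∧ B ≤ N.index) →
      (∀ g ∈ G₀, FreelyGenerate K g → VirtualRetract (K ⊔ Subgroup.zpowers g)) → IsFreeGroup H) ∧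
    ((∀ P : Subgroup G, P ≤ G₀ → P.FG → VirtualRetract P) →
      ∀ H : Subgroup G, H.FG → H.index = 0 → IsFreeGroup H) :=
  ⟨fun H K hKH hKi hK0 hfg hK hg => free_of_retracts hG h2 G₀ h0 H K hKH hKi hK0 hfg hK hg,
    fun hLR H hfg hi => Pool.Agent.MelF.free_of_vlr hG h2 G₀ h0 (fun P h1 h3 => hLR P h1 h3) H hfg hi⟩

end Pool.Agent.Results.MP_24ba74_al.InfiniteIndex
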